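import Pool.Agent.Q136.BM.All

/-!
# MP_0fda35_co: Bohr sets in sums of endomorphic images of a dense set

`upperDensity A` is the supremum of `m(1_A)` over the translation-invariant means `m` on the
bounded functions on `G`, `bohr χ η` is the Bohr set of the characters `χ j : G → S¹` and the
radius `η`, `(φ j).range.index` is the index of the image of `φ j` (`0` if it is infinite).
-/

namespace Pool.Agent.Results.MP_0fda35_co.SumsOfImages

open Q136.BM

universe u

/-- For endomorphisms `φ₁, …, φ_d` (`d ≥ 3`, not assumed to commute) of an abelian group `G` with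
sum `0` whose images have finite index, and `A ⊆ G` of positive upper Banach density, the set
`φ₁(A) + ⋯ + φ_d(A)` contains a Bohr set whose rank and radius depend only on (a lower bound `δ`
for) the density of `A` and on the indices. -/
theorem result (d : ℕ) (hd : 3 ≤ d) (δ : ℝ) (hδ : 0 < δ) (n : Fin d → ℕ) (hn : ∀ j, n j ≠ 0) :
    ∃ (k : ℕ) (η : ℝ), 0 < η ∧ ∀ (G : Type u) [AddCommGroup G] (φ : Fin d → G →+ G),
      (∀ j, (φ j).range.index = n j) → (∑ j, φ j = 0) →
      ∀ A : Set G, δ ≤ upperDensity A → ∃ χ : Fin k → AddChar G Circle,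
        bohr χ η ⊆ {g : G | ∃ x : Fin d → G, (∀ j, x j ∈ A) ∧ ∑ j, φ j (x j) = g} :=
  density_final core_full Q110.BM.erg d hd δ hδ n hn

end Pool.Agent.Results.MP_0fda35_co.SumsOfImages
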